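import Pool.Agent.Q283.FT.Stm3

/-!
# Project FT (helper283), job KSL: local triviality and the covering
-/

set_option autoImplicit false

namespace Pool.Agent.Q162.FT

open NumberField IsDedekindDomain WeierstrassCurve
open Pool.Agent.TH841.SH (IsR IsX gf isX_zero isX_some not_isX)
open Pool.Agent.TH841.SH.D (Coch Pt act Gal IsCoc IsCob LocTriv)
open Pool.Agent.Q283.FT

/-! ## The action on the points -/

section act

variable {F : Type} [Field F] (W : WeierstrassCurve F)

/-- the point `(x, y)` -/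
def pt {L : Type} [Field L] [Algebra F L] {x y : L} (h : (W.baseChange L).toAffine.Nonsingular x y) : Pt W L :=
  Affine.Point.some x y h

variable {W} in
theorem pt_cases {L : Type} [Field L] [Algebra F L] (P : Pt W L) :
    P = 0 ∨ ∃ (x y : L) (h : (W.baseChange L).toAffine.Nonsingular x y), P = pt W h := by
  rcases P with _ | ⟨x, y, h⟩
  · exact Or.inl rfl
  · exact Or.inr ⟨x, y, h, rfl⟩

variable {W} in
theorem pt_inj {L : Type} [Field L] [Algebra F L] {x y x' y' : L} {h : (W.baseChange L).toAffine.Nonsingular x y}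
    {h' : (W.baseChange L).toAffine.Nonsingular x' y'} (e : pt W h = pt W h') : x = x' ∧ y = y' :=
  Affine.Point.some.inj e

variable {W} in
theorem pt_ne {L : Type} [Field L] [Algebra F L] {x y : L} (h : (W.baseChange L).toAffine.Nonsingular x y) :
    pt W h ≠ 0 := Affine.Point.some_ne_zero _

variable {W} in
theorem pt_cg {L : Type} [Field L] [Algebra F L] {x y x' y' : L} {h : (W.baseChange L).toAffine.Nonsingular x y}
    {h' : (W.baseChange L).toAffine.Nonsingular x' y'} (hx : x = x') (hy : y = y') : pt W h = pt W h' := by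
  subst hx
  subst hy
  rfl

theorem act_some {L M : Type} [Field L] [Field M] [Algebra F L] [Algebra F M] (φ : L →ₐ[F] M) {x y : L}
    (h : (W.baseChange L).toAffine.Nonsingular x y) :
    act W φ (pt W h) = pt W ((Affine.baseChange_nonsingular W φ.injective ..).mpr h) := rfl

theorem act_act {L M N : Type} [Field L] [Field M] [Field N] [Algebra F L] [Algebra F M] [Algebra F N]
    (φ : L →ₐ[F] M) (ψ : M →ₐ[F] N) (P : Pt W L) : act W ψ (act W φ P) = act W (ψ.comp φ) P := by
  rcases P with _ | ⟨x, y, h⟩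
  · rfl
  · rfl

theorem act_isX {L M : Type} [Field L] [Field M] [Algebra F L] [Algebra F M] (φ : L →ₐ[F] M) (e : F) (T : Pt W L) :
    IsX (W.baseChange M) (algebraMap F M e) (act W φ T) ↔ IsX (W.baseChange L) (algebraMap F L e) T := by
  rcases pt_cases T with rfl | ⟨x, y, h, rfl⟩
  · exact ⟨fun _ => Or.inl rfl, fun _ => Or.inl rfl⟩
  · by_cases hx : x = algebraMap F L e
    · subst hx
      refine ⟨fun _ => isX_some h, fun _ => ?_⟩
      rw [act_some]
      right
      refine ⟨φ y, ?_, ?_⟩
      · have := (Affine.baseChange_nonsingular W φ.injective ..).mpr h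
        rwa [φ.commutes] at this
      · exact pt_cg (φ.commutes e) rfl
    · refine ⟨fun h' => absurd h' ?_, fun h' => absurd h' (not_isX h hx)⟩
      rw [act_some]
      apply not_isX
      intro h2
      apply hx
      apply φ.injective
      show φ x = φ (algebraMap F L e)
      rw [h2, φ.commutes]

/-- `gf` and the action -/
theorem act_gf {p q r : F} {L : Type} [Field L] [Algebra F L] (φ : L →ₐ[F] L) (R : Pt W L) :
    φ (gf (W.baseChange L) (algebraMap F L p) (algebraMap F L q) (algebraMap F L r) R) =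
      gf (W.baseChange L) (algebraMap F L p) (algebraMap F L q) (algebraMap F L r) (act W φ R) := by
  rcases pt_cases R with rfl | ⟨u, v, h, rfl⟩
  · exact map_zero φ
  · rw [act_some]
    show φ (((u - algebraMap F L p) ^ 2 - (algebraMap F L p - algebraMap F L q) *
      (algebraMap F L p - algebraMap F L r)) / (2 * v)) = ((φ u - algebraMap F L p) ^ 2 -
      (algebraMap F L p - algebraMap F L q) * (algebraMap F L p - algebraMap F L r)) / (2 * φ v)
    simp only [map_div₀, map_sub, map_pow, map_mul, map_ofNat, AlgHom.commutes]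

end act

/-- the product of the three pairings -/
theorem isX_prod {L : Type} [Field L] [DecidableEq L] {W : WeierstrassCurve L} {a b c : L} (h : IsR W a b c)
    (h2 : (2 : L) ≠ 0) (hab : a ≠ b) (hac : a ≠ c) (hbc : b ≠ c) {T : W.toAffine.Point} (hT : T + T = 0) :
    IsX W a T ↔ (IsX W b T ↔ IsX W c T) := by
  rcases h.tors h2 hT with rfl | ⟨ha, rfl⟩ | ⟨hb, rfl⟩ | ⟨hc, rfl⟩
  · exact ⟨fun _ => ⟨fun _ => isX_zero c, fun _ => isX_zero b⟩, fun _ => isX_zero a⟩
  · exact ⟨fun _ => ⟨fun h' => absurd h' (not_isX ha hab), fun h' => absurd h' (not_isX ha hac)⟩, fun _ => isX_some ha⟩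
  · exact ⟨fun h' => absurd h' (not_isX hb hab.symm), fun h' => absurd (h'.1 (isX_some hb)) (not_isX hb hbc)⟩
  · exact ⟨fun h' => absurd h' (not_isX hc hac.symm), fun h' => absurd (h'.2 (isX_some hc)) (not_isX hc hbc.symm)⟩

section root

variable {F : Type} [Field F] {W : WeierstrassCurve F} {p q r : F} {L : Type} [Field L] [Algebra F L]

/-- the sign of `gf` -/
theorem sgn (h2 : (2 : L) ≠ 0)
    (h : IsR (W.baseChange L) (algebraMap F L p) (algebraMap F L q) (algebraMap F L r)) (hpq : p ≠ q) (hpr : p ≠ r)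
    (hqr : q ≠ r) {u v : L} (hn : (W.baseChange L).toAffine.Nonsingular u v) (hv : v ≠ 0) (φ : L →ₐ[F] L) (T : Pt W L)
    (hT : T + T = 0) (hR : act W φ (pt W hn) = pt W hn + T) :
    (IsX (W.baseChange L) (algebraMap F L p) T →
      φ (gf (W.baseChange L) (algebraMap F L p) (algebraMap F L q) (algebraMap F L r) (.some u v hn)) =
        gf (W.baseChange L) (algebraMap F L p) (algebraMap F L q) (algebraMap F L r) (.some u v hn)) ∧
    (¬ IsX (W.baseChange L) (algebraMap F L p) T →
      φ (gf (W.baseChange L) (algebraMap F L p) (algebraMap F L q) (algebraMap F L r) (.some u v hn)) =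
        -gf (W.baseChange L) (algebraMap F L p) (algebraMap F L q) (algebraMap F L r) (.some u v hn)) := by
  let _ : DecidableEq L := Classical.decEq L
  have hinj := (algebraMap F L).injective
  obtain ⟨u', v', hn', e2, hv', h3, h4⟩ := h.sign h2 (hinj.ne hpq) (hinj.ne hpr) (hinj.ne hqr) hn hv hT
  have e1 : φ (gf (W.baseChange L) (algebraMap F L p) (algebraMap F L q) (algebraMap F L r) (.some u v hn)) =
      gf (W.baseChange L) (algebraMap F L p) (algebraMap F L q) (algebraMap F L r) (.some u' v' hn') :=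
    (act_gf W φ (pt W hn)).trans
      (congrArg (gf (W.baseChange L) (algebraMap F L p) (algebraMap F L q) (algebraMap F L r)) (hR.trans e2))
  rw [e1]
  exact ⟨h3, h4⟩

/-- the root function -/
theorem exists_G (h2 : (2 : L) ≠ 0)
    (h : IsR (W.baseChange L) (algebraMap F L p) (algebraMap F L q) (algebraMap F L r)) (hpq : p ≠ q) (hpr : p ≠ r)
    (hqr : q ≠ r) {u v X Y : L} (hn : (W.baseChange L).toAffine.Nonsingular u v) (hv : v ≠ 0)
    (hn' : (W.baseChange L).toAffine.Nonsingular X Y)
    (hRR : pt W hn + pt W hn = pt W hn') :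
    ∃ G : L, G ≠ 0 ∧ ((X ≠ algebraMap F L p ∧ G ^ 2 = X - algebraMap F L p) ∨
      (X = algebraMap F L p ∧ G ^ 2 = (algebraMap F L p - algebraMap F L q) * (algebraMap F L p - algebraMap F L r))) ∧
      ∀ (φ : L →ₐ[F] L) (T : Pt W L), T + T = 0 →
        act W φ (pt W hn) = pt W hn + T →
        (IsX (W.baseChange L) (algebraMap F L p) T → φ G = G) ∧
        (¬ IsX (W.baseChange L) (algebraMap F L p) T → φ G = -G) := by
  let _ : DecidableEq L := Classical.decEq L
  have hinj := (algebraMap F L).injective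
  obtain ⟨X1, Y1, hn1, e1, g1⟩ := h.dup h2 hn hv
  obtain ⟨X2, Y2, hn2, e2, g2⟩ := h.swap.dup h2 hn hv
  obtain ⟨X3, Y3, hn3, e3, g3⟩ := h.rot.rot.dup h2 hn hv
  have q1 := Affine.Point.some.inj (e1.symm.trans hRR)
  have q2 := Affine.Point.some.inj (e2.symm.trans hRR)
  have q3 := Affine.Point.some.inj (e3.symm.trans hRR)
  rw [q1.1] at g1
  rw [q2.1] at g2
  rw [q3.1] at g3
  set P := algebraMap F L p with hP
  set Q := algebraMap F L q with hQ
  set R := algebraMap F L r with hR
  have hPQ : P ≠ Q := hinj.ne hpq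
  have hPR : P ≠ R := hinj.ne hpr
  have hQR : Q ≠ R := hinj.ne hqr
  have f1 : X - P = gf (W.baseChange L) P Q R (.some u v hn) ^ 2 := g1
  have f2 : X - Q = gf (W.baseChange L) Q P R (.some u v hn) ^ 2 := g2
  have f3 : X - R = gf (W.baseChange L) R P Q (.some u v hn) ^ 2 := g3
  by_cases hX : X = P
  · refine ⟨gf (W.baseChange L) Q P R (.some u v hn) * gf (W.baseChange L) R P Q (.some u v hn), ?_,
      Or.inr ⟨hX, ?_⟩, fun φ T hT hφ => ?_⟩
    · refine mul_ne_zero (fun h0 => ?_) (fun h0 => ?_)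
      · rw [h0, hX] at f2
        apply hPQ
        linear_combination f2
      · rw [h0, hX] at f3
        apply hPR
        linear_combination f3
    · rw [mul_pow, ← f2, ← f3, hX]
    · obtain ⟨s1, s2⟩ := sgn h2 h.swap hpq.symm hqr hpr hn hv φ T hT hφ
      obtain ⟨t1, t2⟩ := sgn h2 h.rot.rot hpr.symm hqr.symm hpq hn hv φ T hT hφ
      have hpr' := isX_prod h h2 hPQ hPR hQR hT
      rw [map_mul]
      refine ⟨fun hx => ?_, fun hx => ?_⟩
      · by_cases hy : IsX (W.baseChange L) Q T
        · rw [s1 hy, t1 ((hpr'.1 hx).1 hy)]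
        · rw [s2 hy, t2 (fun h' => hy ((hpr'.1 hx).2 h'))]
          ring
      · by_cases hy : IsX (W.baseChange L) Q T
        · have hz : ¬ IsX (W.baseChange L) R T := fun hz => hx (hpr'.2 ⟨fun _ => hz, fun _ => hy⟩)
          rw [s1 hy, t2 hz]
          ring
        · have hz : IsX (W.baseChange L) R T := by
            by_contra hz
            exact hx (hpr'.2 ⟨fun h' => absurd h' hy, fun h' => absurd h' hz⟩)
          rw [s2 hy, t1 hz]
          ring
  · refine ⟨gf (W.baseChange L) P Q R (.some u v hn), fun h0 => ?_, Or.inl ⟨hX, f1.symm⟩, fun φ T hT hφ => ?_⟩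
    · rw [h0] at f1
      apply hX
      linear_combination f1
    · exact sgn h2 h hpq hpr hqr hn hv φ T hT hφ

end root

/-! ## Squares -/

/-- an element fixed by all the automorphisms lies in the base field -/
theorem fix_mem {K L : Type} [Field K] [Field L] [Algebra K L] [IsGalois K L] (x : L)
    (h : ∀ σ : L ≃ₐ[K] L, σ x = x) : ∃ y : K, algebraMap K L y = x := by
  have h3 : x ∈ Set.range (algebraMap K L) := by
    rw [InfiniteGalois.mem_range_algebraMap_iff_fixed]
    exact h
  exact h3

theorem pm {K L : Type} [Field K] [Field L] [Algebra K L] {z : L} {c : K} (h : z ^ 2 = algebraMap K L c)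
    (τ : L ≃ₐ[K] L) : τ z = z ∨ τ z = -z := by
  have h3 : (τ z) ^ 2 = z ^ 2 := by
    rw [← map_pow, h]
    exact τ.commutes c
  exact sq_eq_sq_iff_eq_or_eq_neg.1 h3

theorem ne_neg {L : Type} [Field L] (h2 : (2 : L) ≠ 0) {z : L} (hz : z ≠ 0) : -z ≠ z := by
  intro h
  have h1 : 2 * z = 0 := by linear_combination -h
  rcases mul_eq_zero.1 h1 with h3 | h3
  · exact h2 h3
  · exact hz h3

theorem sq_iff {K L : Type} [Field K] [Field L] [Algebra K L] [IsGalois K L] (h2 : (2 : L) ≠ 0) {a g : K} {A G : L}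
    (hA : A ^ 2 = algebraMap K L a) (hG : G ^ 2 = algebraMap K L g) (hA0 : A ≠ 0) (hG0 : G ≠ 0) :
    IsSquare (a * g) ↔ ∀ τ : L ≃ₐ[K] L, (τ A = A ↔ τ G = G) := by
  constructor
  · rintro ⟨s, hs⟩ τ
    have h1 : (A * G) ^ 2 = (algebraMap K L s) ^ 2 := by
      rw [mul_pow, hA, hG, ← map_mul, hs, ← map_pow]
      congr 1
      ring
    have h3 : τ A * τ G = A * G := by
      rw [← map_mul]
      rcases sq_eq_sq_iff_eq_or_eq_neg.1 h1 with h4 | h4
      · rw [h4, τ.commutes]
      · rw [h4, map_neg, τ.commutes]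
    constructor
    · intro h4
      rw [h4] at h3
      exact mul_left_cancel₀ hA0 h3
    · intro h4
      rw [h4] at h3
      exact mul_right_cancel₀ hG0 h3
  · intro h
    obtain ⟨s, hs⟩ := fix_mem (K := K) (A * G) (fun τ => by
      rw [map_mul]
      rcases pm hA τ with h3 | h3
      · rw [h3, (h τ).1 h3]
      · rcases pm hG τ with h4 | h4
        · exact absurd ((h τ).2 h4) (by rw [h3]; exact ne_neg h2 hA0)
        · rw [h3, h4]
          ring)
    refine ⟨s, ?_⟩
    apply (algebraMap K L).injective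
    rw [map_mul, map_mul, ← hA, ← hG, hs]
    ring

theorem sq_one_iff {K L : Type} [Field K] [Field L] [Algebra K L] [IsGalois K L] (h2 : (2 : L) ≠ 0) {a : K} {A : L}
    (hA : A ^ 2 = algebraMap K L a) (hA0 : A ≠ 0) : IsSquare a ↔ ∀ τ : L ≃ₐ[K] L, τ A = A := by
  have h := sq_iff (K := K) h2 hA (g := 1) (G := 1) (by rw [map_one, one_pow]) hA0 one_ne_zero
  rw [mul_one] at h
  rw [h]
  exact forall_congr' fun τ => by simp only [map_one, iff_true]

/-! ## The classes of points -/

/-- the curve `crv e` over `L` has the roots `e j` -/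
theorem crv_isR {F : Type} [Field F] {e : Fin 3 → F} (he : Rt e) (L : Type) [Field L] [Algebra F L] :
    IsR ((crv e).baseChange L) (algebraMap F L (e 0)) (algebraMap F L (e 1)) (algebraMap F L (e 2)) := by
  have hs : algebraMap F L (e 0) + algebraMap F L (e 1) + algebraMap F L (e 2) = 0 := by
    rw [← map_add, ← map_add, he.sum, map_zero]
  refine ⟨?_, ?_, ?_, ?_, ?_⟩
  · change algebraMap F L 0 = 0
    exact map_zero _
  · change algebraMap F L 0 = _
    rw [hs, neg_zero, map_zero]
  · change algebraMap F L 0 = 0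
    exact map_zero _
  · change algebraMap F L (e 0 * e 1 + e 0 * e 2 + e 1 * e 2) = _
    simp only [map_add, map_mul]
  · change algebraMap F L (-(e 0 * e 1 * e 2)) = _
    simp only [map_neg, map_mul]

section cls

variable {F : Type} [Field F] {e : Fin 3 → F} {K : Type} [Field K] [Algebra F K] [CharZero K]

/-- the embedding -/
noncomputable abbrev jj (F : Type) [Field F] (K : Type) [Field K] [Algebra F K] : K →ₐ[F] AlgebraicClosure K :=
  IsScalarTower.toAlgHom F K (AlgebraicClosure K)

/-- the action of the Galois group of `K` -/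
noncomputable abbrev ga (F : Type) [Field F] {K : Type} [Field K] [Algebra F K] (τ : Gal K) :
    AlgebraicClosure K →ₐ[F] AlgebraicClosure K := τ.toAlgHom.restrictScalars F

omit [CharZero K] in
theorem ga_fix (W : WeierstrassCurve F) (τ : Gal K) (P : Pt W K) : act W (ga F τ) (act W (jj F K) P) = act W (jj F K) P := by
  rw [act_act]
  congr 1
  congr 1
  ext z
  exact τ.commutes z

omit [CharZero K] in
theorem htow (z : F) : algebraMap F (AlgebraicClosure K) z = algebraMap K (AlgebraicClosure K) (algebraMap F K z) :=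
  IsScalarTower.algebraMap_apply F K (AlgebraicClosure K) z

/-- points of order dividing two are fixed -/
theorem tors_fix (he : Rt e) (τ : Gal K) {T : Pt (crv e) (AlgebraicClosure K)} (hT : T + T = 0) :
    act (crv e) (ga F τ) T = T := by
  let _ : DecidableEq (AlgebraicClosure K) := Classical.decEq _
  have h2 : (2 : AlgebraicClosure K) ≠ 0 := two_ne_zero
  have hfx : ∀ z : F, ga F τ (algebraMap F (AlgebraicClosure K) z) = algebraMap F (AlgebraicClosure K) z :=
    fun z => (ga F τ).commutes z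
  have hpt : ∀ (z : F) (hn : ((crv e).baseChange (AlgebraicClosure K)).toAffine.Nonsingular
      (algebraMap F (AlgebraicClosure K) z) 0), act (crv e) (ga F τ) (pt (crv e) hn) = pt (crv e) hn := by
    intro z hn
    rw [act_some]
    exact pt_cg (hfx z) (map_zero (ga F τ))
  rcases (crv_isR he (AlgebraicClosure K)).tors h2 hT with rfl | ⟨ha, rfl⟩ | ⟨hb, rfl⟩ | ⟨hc, rfl⟩
  · exact map_zero _
  · exact hpt _ ha
  · exact hpt _ hb
  · exact hpt _ hc

theorem cls_iff {i : F} (hi : i ^ 2 = -1) (he : Rt e) {a b : K} (ha : a ≠ 0) (hb : b ≠ 0) {A B : AlgebraicClosure K}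
    (hA : A ^ 2 = algebraMap K _ a) (hB : B ^ 2 = algebraMap K _ b) (P : Pt (crv e) K)
    (R : Pt (crv e) (AlgebraicClosure K)) (hR : R + R = act (crv e) (jj F K) P) :
    Cx e K P a b ↔ ∀ τ : Gal K,
      (τ A = A ↔ IsX ((crv e).baseChange (AlgebraicClosure K)) (algebraMap F _ (e 0)) (act (crv e) (ga F τ) R - R)) ∧
      (τ B = B ↔ IsX ((crv e).baseChange (AlgebraicClosure K)) (algebraMap F _ (e 1)) (act (crv e) (ga F τ) R - R)) := by
  have h2 : (2 : AlgebraicClosure K) ≠ 0 := two_ne_zero
  have h01 : e 0 ≠ e 1 := fun h => absurd (he.inj h) (by decide)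
  have h02 : e 0 ≠ e 2 := fun h => absurd (he.inj h) (by decide)
  have h12 : e 1 ≠ e 2 := fun h => absurd (he.inj h) (by decide)
  have hinj : Function.Injective (algebraMap K (AlgebraicClosure K)) := (algebraMap K _).injective
  have hA0 : A ≠ 0 := by
    rintro rfl
    rw [zero_pow two_ne_zero] at hA
    exact ha ((map_eq_zero _).1 hA.symm)
  have hB0 : B ≠ 0 := by
    rintro rfl
    rw [zero_pow two_ne_zero] at hB
    exact hb ((map_eq_zero _).1 hB.symm)
  have hI := crv_isR he (AlgebraicClosure K)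
  rcases pt_cases P with rfl | ⟨x, y, hn, rfl⟩
  · -- the zero point
    have hRR : R + R = 0 := hR.trans (map_zero _)
    have hT : ∀ τ : Gal K, act (crv e) (ga F τ) R - R = 0 := fun τ => by rw [tors_fix he τ hRR, sub_self]
    have e1 : Cx e K 0 a b ↔ IsSquare a ∧ IsSquare b := by
      constructor
      · rintro ⟨-, -, ⟨-, h⟩ | ⟨x, y, hn, h, -⟩⟩
        · exact h
        · exact absurd h.symm (Affine.Point.some_ne_zero _)
      · intro h
        exact ⟨ha, hb, Or.inl ⟨rfl, h⟩⟩
    rw [e1, sq_one_iff h2 hA hA0, sq_one_iff h2 hB hB0, ← forall_and]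
    refine forall_congr' fun τ => ?_
    rw [hT τ]
    exact ⟨fun h => ⟨⟨fun _ => isX_zero _, fun _ => h.1⟩, ⟨fun _ => isX_zero _, fun _ => h.2⟩⟩,
      fun h => ⟨h.1.2 (isX_zero _), h.2.2 (isX_zero _)⟩⟩
  · -- a finite point
    have hR' := hR
    rw [act_some] at hR
    have hR0 : R ≠ 0 := by
      rintro rfl
      rw [add_zero] at hR
      exact pt_ne _ hR.symm
    have hTT : ∀ τ : Gal K, (act (crv e) (ga F τ) R - R) + (act (crv e) (ga F τ) R - R) = 0 := by
      intro τ
      have h3 : act (crv e) (ga F τ) R + act (crv e) (ga F τ) R = R + R := by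
        rw [← map_add, hR', ga_fix]
      have h4 : (act (crv e) (ga F τ) R - R) + (act (crv e) (ga F τ) R - R) =
        (act (crv e) (ga F τ) R + act (crv e) (ga F τ) R) - (R + R) := by abel
      rw [h4, h3, sub_self]
    rcases pt_cases R with rfl | ⟨u, v, hnR, rfl⟩
    · exact absurd rfl hR0
    have hv : v ≠ 0 := by
      intro hv
      let _ : DecidableEq (AlgebraicClosure K) := Classical.decEq _
      have h5 := (hI.add_self h2 hnR).2 hv
      exact pt_ne _ (hR.symm.trans h5)
    obtain ⟨G, hG0, hG, hGs⟩ := exists_G h2 hI h01 h02 h12 hnR hv _ hR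
    obtain ⟨G', hG0', hG', hGs'⟩ := exists_G h2 hI.swap h01.symm h12 h02 hnR hv _ hR
    have hadd : ∀ τ : Gal K, act (crv e) (ga F τ) (pt (crv e) hnR) =
        (pt (crv e) hnR) + (act (crv e) (ga F τ)
          (pt (crv e) hnR) - (pt (crv e) hnR)) :=
      fun τ => by abel
    have k1 : ∀ τ : Gal K, τ G = G ↔ IsX ((crv e).baseChange (AlgebraicClosure K)) (algebraMap F _ (e 0))
        (act (crv e) (ga F τ) (pt (crv e) hnR) -
          (pt (crv e) hnR)) := by
      intro τ
      obtain ⟨s1, s2⟩ := hGs (ga F τ) _ (hTT τ) (hadd τ)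
      refine ⟨fun h => ?_, fun h => s1 h⟩
      by_contra h3
      have h4 : τ G = -G := s2 h3
      exact ne_neg h2 hG0 (h4.symm.trans h)
    have k2 : ∀ τ : Gal K, τ G' = G' ↔ IsX ((crv e).baseChange (AlgebraicClosure K)) (algebraMap F _ (e 1))
        (act (crv e) (ga F τ) (pt (crv e) hnR) -
          (pt (crv e) hnR)) := by
      intro τ
      obtain ⟨s1, s2⟩ := hGs' (ga F τ) _ (hTT τ) (hadd τ)
      refine ⟨fun h => ?_, fun h => s1 h⟩
      by_contra h3
      have h4 : τ G' = -G' := s2 h3
      exact ne_neg h2 hG0' (h4.symm.trans h)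
    have d0 : df e 0 = e 1 - e 2 := rfl
    have d1 : df e 1 = e 0 - e 2 := rfl
    have d2 : df e 2 = e 0 - e 1 := rfl
    have c1 : ((x ≠ algebraMap F K (e 0) ∧ IsSquare (a * (x - algebraMap F K (e 0)))) ∨
        (x = algebraMap F K (e 0) ∧ IsSquare (a * algebraMap F K (df e 1 * df e 2)))) ↔
        ∀ τ : Gal K, (τ A = A ↔ τ G = G) := by
      rcases hG with ⟨hx, hG⟩ | ⟨hx, hG⟩
      · have hx' : x ≠ algebraMap F K (e 0) := by
          rintro rfl
          exact hx (htow (e 0)).symm
        have hG1 : G ^ 2 = algebraMap K (AlgebraicClosure K) (x - algebraMap F K (e 0)) := by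
          rw [hG, map_sub, ← htow]
          rfl
        rw [← sq_iff h2 hA hG1 hA0 hG0]
        exact ⟨fun h => h.elim (fun h => h.2) (fun h => absurd h.1 hx'), fun h => Or.inl ⟨hx', h⟩⟩
      · have hx' : x = algebraMap F K (e 0) := by
          apply hinj
          rw [← htow]
          exact hx
        have hG1 : G ^ 2 = algebraMap K (AlgebraicClosure K) (algebraMap F K (df e 1 * df e 2)) := by
          rw [hG, ← htow, d1, d2, map_mul, map_sub, map_sub]
          ring
        rw [← sq_iff h2 hA hG1 hA0 hG0]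
        exact ⟨fun h => h.elim (fun h => absurd hx' h.1) (fun h => h.2), fun h => Or.inr ⟨hx', h⟩⟩
    have c2 : ((x ≠ algebraMap F K (e 1) ∧ IsSquare (b * (x - algebraMap F K (e 1)))) ∨
        (x = algebraMap F K (e 1) ∧ IsSquare (b * algebraMap F K (df e 0 * df e 2)))) ↔
        ∀ τ : Gal K, (τ B = B ↔ τ G' = G') := by
      rcases hG' with ⟨hx, hG⟩ | ⟨hx, hG⟩
      · have hx' : x ≠ algebraMap F K (e 1) := by
          rintro rfl
          exact hx (htow (e 1)).symm
        have hG1 : G' ^ 2 = algebraMap K (AlgebraicClosure K) (x - algebraMap F K (e 1)) := by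
          rw [hG, map_sub, ← htow]
          rfl
        rw [← sq_iff h2 hB hG1 hB0 hG0']
        exact ⟨fun h => h.elim (fun h => h.2) (fun h => absurd h.1 hx'), fun h => Or.inl ⟨hx', h⟩⟩
      · have hx' : x = algebraMap F K (e 1) := by
          apply hinj
          rw [← htow]
          exact hx
        have hG1 : G' ^ 2 = algebraMap K (AlgebraicClosure K) (algebraMap F K (i ^ 2 * (df e 0 * df e 2))) := by
          rw [hG, ← htow, hi, d0, d2, map_mul, map_mul, map_sub, map_sub, map_neg, map_one]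
          ring
        have hsq : IsSquare (b * algebraMap F K (i ^ 2 * (df e 0 * df e 2))) ↔
            IsSquare (b * algebraMap F K (df e 0 * df e 2)) := by
          rw [hi]
          have hi' : (algebraMap F K i) ^ 2 = -1 := by rw [← map_pow, hi, map_neg, map_one]
          rw [map_mul, map_neg, map_one]
          constructor
          · rintro ⟨s, hs⟩
            exact ⟨algebraMap F K i * s, by linear_combination -hs - s ^ 2 * hi'⟩
          · rintro ⟨s, hs⟩
            exact ⟨algebraMap F K i * s, by linear_combination -hs - s ^ 2 * hi'⟩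
        rw [← sq_iff h2 hB hG1 hB0 hG0', hsq]
        exact ⟨fun h => h.elim (fun h => absurd hx' h.1) (fun h => h.2), fun h => Or.inr ⟨hx', h⟩⟩
    have e1 : Cx e K (pt (crv e) hn) a b ↔
        ((x ≠ algebraMap F K (e 0) ∧ IsSquare (a * (x - algebraMap F K (e 0)))) ∨
          (x = algebraMap F K (e 0) ∧ IsSquare (a * algebraMap F K (df e 1 * df e 2)))) ∧
        ((x ≠ algebraMap F K (e 1) ∧ IsSquare (b * (x - algebraMap F K (e 1)))) ∨
          (x = algebraMap F K (e 1) ∧ IsSquare (b * algebraMap F K (df e 0 * df e 2)))) := by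
      constructor
      · rintro ⟨-, -, ⟨h, -⟩ | ⟨x', y', hn', h, h3, h4⟩⟩
        · exact absurd h (pt_ne _)
        · obtain ⟨rfl, rfl⟩ := pt_inj h
          exact ⟨h3, h4⟩
      · rintro ⟨h3, h4⟩
        exact ⟨ha, hb, Or.inr ⟨x, y, hn, rfl, h3, h4⟩⟩
    rw [e1, c1, c2, ← forall_and]
    exact forall_congr' fun τ => by rw [k1 τ, k2 τ]

/-- the general form of the theorem -/
theorem coh_iff {i : F} (hi : i ^ 2 = -1) (he : Rt e) {a b : K} (ha : a ≠ 0) (hb : b ≠ 0) {A B : AlgebraicClosure K}
    (hA : A ^ 2 = algebraMap K _ a) (hB : B ^ 2 = algebraMap K _ b) (c : Gal K → Pt (crv e) (AlgebraicClosure K))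
    (hc : ∀ τ, c τ + c τ = 0)
    (hc0 : ∀ τ : Gal K, τ A = A ↔ IsX ((crv e).baseChange (AlgebraicClosure K)) (algebraMap F _ (e 0)) (c τ))
    (hc1 : ∀ τ : Gal K, τ B = B ↔ IsX ((crv e).baseChange (AlgebraicClosure K)) (algebraMap F _ (e 1)) (c τ)) :
    (∃ R : Pt (crv e) (AlgebraicClosure K), ∀ τ, c τ = act (crv e) (ga F τ) R - R) ↔
      ∃ P : Pt (crv e) K, Cx e K P a b := by
  let _ : DecidableEq (AlgebraicClosure K) := Classical.decEq _
  have h2 : (2 : AlgebraicClosure K) ≠ 0 := two_ne_zero
  have h2K : (2 : K) ≠ 0 := two_ne_zero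
  have hinj : Function.Injective (algebraMap K (AlgebraicClosure K)) := (algebraMap K _).injective
  have hinjF : Function.Injective (algebraMap F K) := (algebraMap F _).injective
  have hinjΩ : Function.Injective (algebraMap F (AlgebraicClosure K)) := (algebraMap F _).injective
  have h01 : e 0 ≠ e 1 := fun h => absurd (he.inj h) (by decide)
  have h02 : e 0 ≠ e 2 := fun h => absurd (he.inj h) (by decide)
  have h12 : e 1 ≠ e 2 := fun h => absurd (he.inj h) (by decide)
  have hI := crv_isR he (AlgebraicClosure K)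
  have hIK := crv_isR he K
  constructor
  · rintro ⟨R, hR⟩
    have hfix : ∀ τ : Gal K, act (crv e) (ga F τ) (R + R) = R + R := by
      intro τ
      have h3 : act (crv e) (ga F τ) R = R + c τ := by
        rw [hR τ]
        abel
      rw [map_add, h3]
      have h4 : (R + c τ) + (R + c τ) = (R + R) + (c τ + c τ) := by abel
      rw [h4, hc, add_zero]
    obtain ⟨P, hP⟩ : ∃ P : Pt (crv e) K, R + R = act (crv e) (jj F K) P := by
      generalize R + R = Q at hfix
      rcases pt_cases Q with rfl | ⟨X, Y, hn, rfl⟩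
      · exact ⟨0, (map_zero _).symm⟩
      · have hXY : ∀ τ : Gal K, τ X = X ∧ τ Y = Y := by
          intro τ
          have h6 := hfix τ
          rw [act_some] at h6
          exact pt_inj h6
        obtain ⟨x, hx⟩ := fix_mem (K := K) X (fun τ => (hXY τ).1)
        obtain ⟨y, hy⟩ := fix_mem (K := K) Y (fun τ => (hXY τ).2)
        have hey : y ^ 2 = (x - algebraMap F K (e 0)) * (x - algebraMap F K (e 1)) * (x - algebraMap F K (e 2)) := by
          apply hinj
          have h9 := (hI.eqn X Y).1 hn.1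
          rw [map_pow, map_mul, map_mul, map_sub, map_sub, map_sub, hx, hy, ← htow, ← htow, ← htow, h9]
        have hn1 := hIK.nons h2K (hinjF.ne h01) (hinjF.ne h02) (hinjF.ne h12) hey
        refine ⟨pt (crv e) hn1, ?_⟩
        rw [act_some]
        exact pt_cg hx.symm hy.symm
    refine ⟨P, (cls_iff hi he ha hb hA hB P R hP).2 fun τ => ?_⟩
    rw [← hR τ]
    exact ⟨hc0 τ, hc1 τ⟩
  · rintro ⟨P, hP⟩
    obtain ⟨R, hR⟩ : ∃ R : Pt (crv e) (AlgebraicClosure K), act (crv e) (jj F K) P = R + R :=
      hI.div h2 (hinjΩ.ne h01) (hinjΩ.ne h02) (hinjΩ.ne h12) _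
    refine ⟨R, fun τ => ?_⟩
    have h3 := (cls_iff hi he ha hb hA hB P R hR.symm).1 hP τ
    have h4 : (act (crv e) (ga F τ) R - R) + (act (crv e) (ga F τ) R - R) = 0 := by
      have h5 : (act (crv e) (ga F τ) R - R) + (act (crv e) (ga F τ) R - R) =
        act (crv e) (ga F τ) (R + R) - (R + R) := by
        rw [map_add]
        abel
      rw [h5, ← hR, ga_fix, sub_self]
    refine hI.ext h2 (hinjΩ.ne h01) (hinjΩ.ne h02) (hinjΩ.ne h12) (hc τ) h4 ?_ ?_
    · rw [← hc0 τ]
      exact h3.1
    · rw [← hc1 τ]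
      exact h3.2

end cls

/-! ## The places -/

/-- restriction of automorphisms -/
theorem exists_restr {K Kv : Type} [Field K] [Field Kv] [Algebra K Kv]
    (ι : AlgebraicClosure K →ₐ[K] AlgebraicClosure Kv) (τ : Gal Kv) :
    ∃ σ : Gal K, ∀ x, τ (ι x) = ι (σ x) := by
  let _ : Algebra (AlgebraicClosure K) (AlgebraicClosure Kv) := ι.toRingHom.toAlgebra
  have : IsScalarTower K (AlgebraicClosure K) (AlgebraicClosure Kv) :=
    IsScalarTower.of_algebraMap_eq (fun x => (ι.commutes x).symm)
  have : Normal K (AlgebraicClosure K) := IsAlgClosure.normal K _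
  let τ' : AlgebraicClosure Kv ≃ₐ[K] AlgebraicClosure Kv := τ.restrictScalars K
  exact ⟨τ'.restrictNormal (AlgebraicClosure K), fun x =>
    (AlgEquiv.restrictNormal_commutes τ' (AlgebraicClosure K) x).symm⟩

/-- a number field containing `i` has no real places -/
theorem isComplex_of_i {F : Type} [Field F] {i : F} (hi : i ^ 2 = -1) (v : InfinitePlace F) : v.IsComplex := by
  rw [← InfinitePlace.not_isReal_iff_isComplex]
  intro hv
  have h1 : (v.embedding_of_isReal hv i) ^ 2 = -1 := by rw [← map_pow, hi, map_neg, map_one]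
  nlinarith [sq_nonneg (v.embedding_of_isReal hv i)]

/-- the complex places -/
theorem loc_inf {K : Type} [Field K] (v : InfinitePlace K) (hc : v.IsComplex) (W : WeierstrassCurve K)
    {f : Coch W} (h1 : f 1 = 0) : LocTriv W v.Completion f := by
  have hac : IsAlgClosed v.Completion :=
    IsAlgClosed.of_ringEquiv ℂ v.Completion
      (InfinitePlace.Completion.ringEquivComplexOfIsComplex hc).symm
  intro ι'
  refine ⟨0, fun τ σ h => ?_⟩
  have h2 : ∀ y, τ y = y := by
    intro y
    obtain ⟨x, rfl⟩ := (IsAlgClosed.algebraMap_bijective_of_isIntegral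
      (k := v.Completion) (K := AlgebraicClosure v.Completion)).2 y
    exact τ.commutes x
  have h3 : σ = 1 := by
    refine AlgEquiv.ext fun x => ι'.injective ?_
    have h4 : ι' (σ x) = ι' x := by rw [← h, h2]
    exact h4
  rw [h3, h1, map_zero, map_zero, sub_zero]

/-- local triviality, for every extension field -/
theorem loc_iff {F : Type} [Field F] {i : F} (hi : i ^ 2 = -1) {e : Fin 3 → F} (he : Rt e) {a b : F} (ha : a ≠ 0)
    (hb : b ≠ 0) {f : Coch (crv e)} (hf : ∀ σ, f σ + f σ = 0) {α β : AlgebraicClosure F}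
    (hα : α ^ 2 = algebraMap F _ a) (hβ : β ^ 2 = algebraMap F _ b)
    (h0 : ∀ σ : Gal F, σ α = α ↔ IsX ((crv e).baseChange (AlgebraicClosure F)) (algebraMap F _ (e 0)) (f σ))
    (h1 : ∀ σ : Gal F, σ β = β ↔ IsX ((crv e).baseChange (AlgebraicClosure F)) (algebraMap F _ (e 1)) (f σ))
    (K : Type) [Field K] [Algebra F K] [CharZero K] :
    LocTriv (crv e) K f ↔ ∃ P : Pt (crv e) K, Cx e K P (algebraMap F K a) (algebraMap F K b) := by
  have key : ∀ ι : AlgebraicClosure F →ₐ[F] AlgebraicClosure K,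
      (∃ P : Pt (crv e) (AlgebraicClosure K), ∀ (τ : Gal K) (σ : Gal F), (∀ x, τ (ι x) = ι (σ x)) →
        act (crv e) ι (f σ) = act (crv e) (τ.toAlgHom.restrictScalars F) P - P) ↔
      ∃ P : Pt (crv e) K, Cx e K P (algebraMap F K a) (algebraMap F K b) := by
    intro ι
    choose r hr using fun τ : Gal K => exists_restr ι τ
    have huniq : ∀ (τ : Gal K) (σ : Gal F), (∀ x, τ (ι x) = ι (σ x)) → σ = r τ := by
      intro τ σ h
      refine AlgEquiv.ext fun x => ι.injective ?_
      have h4 : ι (σ x) = ι (r τ x) := by rw [← h, ← hr]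
      exact h4
    have hc : ∀ τ : Gal K, act (crv e) ι (f (r τ)) + act (crv e) ι (f (r τ)) = 0 := by
      intro τ
      rw [← map_add, hf, map_zero]
    have hA : (ι α) ^ 2 = algebraMap K (AlgebraicClosure K) (algebraMap F K a) := by
      rw [← map_pow, hα, ι.commutes, htow]
    have hB : (ι β) ^ 2 = algebraMap K (AlgebraicClosure K) (algebraMap F K b) := by
      rw [← map_pow, hβ, ι.commutes, htow]
    have hc0 : ∀ τ : Gal K, τ (ι α) = ι α ↔ IsX ((crv e).baseChange (AlgebraicClosure K)) (algebraMap F _ (e 0))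
        (act (crv e) ι (f (r τ))) := by
      intro τ
      rw [act_isX, ← h0, hr]
      exact ⟨fun h => ι.injective h, fun h => by rw [h]⟩
    have hc1 : ∀ τ : Gal K, τ (ι β) = ι β ↔ IsX ((crv e).baseChange (AlgebraicClosure K)) (algebraMap F _ (e 1))
        (act (crv e) ι (f (r τ))) := by
      intro τ
      rw [act_isX, ← h1, hr]
      exact ⟨fun h => ι.injective h, fun h => by rw [h]⟩
    rw [← coh_iff hi he ((map_ne_zero _).2 ha) ((map_ne_zero _).2 hb) hA hB (fun τ => act (crv e) ι (f (r τ))) hc hc0 hc1]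
    refine exists_congr fun P => ⟨fun h τ => h τ (r τ) (hr τ), fun h τ σ hσ => ?_⟩
    rw [huniq τ σ hσ]
    exact h τ
  obtain ⟨ι⟩ : Nonempty (AlgebraicClosure F →ₐ[F] AlgebraicClosure K) := ⟨IsAlgClosed.lift⟩
  exact ⟨fun h => (key ι).1 (h ι), fun h ι' => (key ι').2 h⟩

/-- **JOB KSL** -/
theorem ksl (hAXP : S_AXP) : S_KSL := by
  intro F _ _ i hi e he a b f ha hb hf
  obtain ⟨hf2, α, β, hα, hβ, hs⟩ := hf
  have h01 : e 0 ≠ e 1 := fun h => absurd (he.inj h) (by decide)
  refine ⟨fun v => ?_, fun v => loc_inf v (isComplex_of_i hi v) _ ?_⟩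
  · have : CharZero (v.adicCompletion F) := charZero_of_injective_algebraMap (algebraMap F _).injective
    rw [loc_iff hi he ha hb hf2 hα hβ (fun σ => (hs σ).1) (fun σ => (hs σ).2) (v.adicCompletion F),
      ← hAXP F i hi e he (v.adicCompletion F) a b ha hb]
    exact ⟨fun h => ⟨ha, hb, h⟩, fun h => h.2.2⟩
  · have h3 := (hs 1).1.1 rfl
    have h4 := (hs 1).2.1 rfl
    rcases h3 with h3 | ⟨y, h, h3⟩
    · exact h3
    · rcases h4 with h4 | ⟨y', h', h4⟩
      · exact h4
      · exfalso
        have h5 := (Affine.Point.some.inj (h3.symm.trans h4)).1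
        exact h01 ((algebraMap F (AlgebraicClosure F)).injective h5)

end Pool.Agent.Q162.FT
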